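import Pool.Agent.Lib.MP_0c3001_gt.Mg.G008

/-!
# Campaign DV (divisible roots of central elements): definitions
-/

set_option autoImplicit false

namespace Pool.MP0c3001.DV

open CategoryTheory CategoryTheory.Abelian Limits

noncomputable section

/-! ## Coefficients -/

section Coeff

variable (k : Type) [CommRing k] (Q : Type) [Group Q]

/-- The trivial representation `k/n`. -/
abbrev Vq (n : ℕ) : Rep.{0} k Q := Rep.trivial k Q (k ⧸ Ideal.span {(n : k)})

/-- The projection `k → k/n`. -/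
abbrev qm (n : ℕ) : Zt k Q ⟶ Vq k Q n := trivMap (Q := Q) (Ideal.span {(n : k)}).mkQ

end Coeff

variable {k : Type} [CommRing k] {G Q Q' E : Type} [Group G] [Group Q] [Group Q'] [Group E]

/-- Restriction of classes along a homomorphism. -/
abbrev rs (φ : Q' →* Q) {V W : Rep.{0} k Q} {i : ℕ} (x : Ext.{0} V W i) :
    Ext.{0} ((Rep.resFunctor.{0} (k := k) φ).obj V) ((Rep.resFunctor.{0} (k := k) φ).obj W) i :=
  x.mapExactFunctor (Rep.resFunctor.{0} (k := k) φ)

/-- The class in `H²(Q;k)` of an integral 2-cocycle. -/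
def ecl (k : Type) [CommRing k] {c : Q → Q → ℤ} (hc : IsCoc c) : HH k Q (Zt k Q) 2 :=
  cls (k := k) (hc.map (Int.castAddHom k))

/-- `c` is a factor set of the cyclic central extension `π` with kernel generated by `z`. -/
def FitsZ (π : G →* Q) (z : G) (c : Q → Q → ℤ) : Prop :=
  ∃ (s : Q → G) (_ : IsSec π s) (j : G → ℤ), (∀ g, g = z ^ j g * s (π g)) ∧
    ∀ q' q, c q' q = j (s q' * s q)

/-- The class `x ∈ H^i(Q;k)` is divisible by `n`. -/
def Dvd (n : ℕ) {i : ℕ} (x : HH k Q (Zt k Q) i) : Prop := ∃ y : HH k Q (Zt k Q) i, x = n • y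

/-- All `H^i(Q;k/l)` with `i ≥ i₀` are finite. -/
def FinQ (k : Type) [CommRing k] (Q : Type) [Group Q] (l i₀ : ℕ) : Prop :=
  ∀ i, i₀ ≤ i → Finite (HH k Q (Vq k Q l) i)

/-! ## Modules of functions on a `G`-set -/

section Mp

variable (X : Type) [MulAction G X] (V : Rep.{0} k G)

/-- The representation of `G` on the functions `X → V`: `(g f)(x) = g f(g⁻¹ x)`. -/
def mpRho : Representation k G (X → V.V) where
  toFun g :=
    { toFun := fun f x => V.ρ g (f (g⁻¹ • x))
      map_add' := fun f f' => by funext x; simp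
      map_smul' := fun c f => by funext x; simp }
  map_one' := by
    apply LinearMap.ext
    intro f
    funext x
    simp
  map_mul' g h := by
    apply LinearMap.ext
    intro f
    funext x
    simp [mul_smul]

/-- The representation `Map(X,V)`. -/
abbrev Mp : Rep.{0} k G := Rep.of (mpRho X V)

lemma mp_apply (g : G) (f : X → V.V) (x : X) :
    (Mp X V).ρ g f x = V.ρ g (f (g⁻¹ • x)) := rfl

/-- The constant functions `V → Map(X,V)`. -/
def mpConst : V ⟶ Mp X V :=
  Rep.ofHom
    { toLinearMap :=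
        { toFun := fun v _ => v
          map_add' := fun _ _ => rfl
          map_smul' := fun _ _ => rfl }
      isIntertwining' := fun _ => rfl }

/-- Functoriality of `Map(X,V)` in `V`. -/
def mpMap {V W : Rep.{0} k G} (f : V ⟶ W) : Mp X V ⟶ Mp X W :=
  Rep.ofHom
    { toLinearMap :=
        { toFun := fun u x => f.hom (u x)
          map_add' := fun u u' => by funext x; simp
          map_smul' := fun c u => by funext x; simp }
      isIntertwining' := by
        intro g
        apply LinearMap.ext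
        intro u
        funext x
        change f.hom (V.ρ g (u (g⁻¹ • x))) = W.ρ g (f.hom (u (g⁻¹ • x)))
        exact Rep.hom_comm_apply f g _ }

/-- Evaluation at `x` is equivariant for the stabilizer of `x`. -/
def mpEv (x : X) : (Rep.resFunctor.{0} (k := k) (MulAction.stabilizer G x).subtype).obj (Mp X V) ⟶
    (Rep.resFunctor.{0} (k := k) (MulAction.stabilizer G x).subtype).obj V :=
  Rep.ofHom
    { toLinearMap := LinearMap.proj x
      isIntertwining' := by
        intro g
        apply LinearMap.ext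
        intro f
        have h : (g : G)⁻¹ • x = x := by
          rw [inv_smul_eq_iff]
          exact g.2.symm
        change V.ρ g.1 (f ((g : G)⁻¹ • x)) = V.ρ g.1 (f x)
        rw [h] }

/-- Restriction to the stabilizer of `x` and evaluation at `x`:
`H^i(G;Map(X,V)) → H^i(G_x;V)`. -/
def evx (x : X) (i : ℕ) : HH k G (Mp X V) i →+
    HH k (MulAction.stabilizer G x)
      ((Rep.resFunctor.{0} (k := k) (MulAction.stabilizer G x).subtype).obj V) i :=
  cmp (Rep.resFunctor.{0} (k := k) (MulAction.stabilizer G x).subtype)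
    (X' := Zt k (MulAction.stabilizer G x)) (𝟙 _) (mpEv X V x) i

end Mp

/-! ## The set of `l`-th roots -/

/-- The `l`-th roots of `z` in `G`. -/
abbrev Rt (z : G) (l : ℕ) : Type := {r : G // r ^ l = z}

/-- `Q = G/z` acts on the `l`-th roots of `z` by conjugation. -/
abbrev conjAct {π : G →* Q} {z : G} (hπ : CycExt π z) (l : ℕ) : MulAction Q (Rt z l) where
  smul q r := ⟨Function.surjInv hπ.surj q * r.1 * (Function.surjInv hπ.surj q)⁻¹, by
    rw [conj_pow, r.2, ← hπ.cen, mul_inv_cancel_right]⟩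
  one_smul r := by
    apply Subtype.ext
    change Function.surjInv hπ.surj 1 * r.1 * (Function.surjInv hπ.surj 1)⁻¹ = r.1
    obtain ⟨n, hn⟩ := hπ.ker _ (Function.surjInv_eq hπ.surj 1)
    have hc : Commute z r.1 := hπ.cen _
    rw [hn, (hc.zpow_left n).eq, mul_inv_cancel_right]
  mul_smul q q' r := by
    apply Subtype.ext
    change Function.surjInv hπ.surj (q * q') * r.1 * (Function.surjInv hπ.surj (q * q'))⁻¹ =
      Function.surjInv hπ.surj q * (Function.surjInv hπ.surj q' * r.1 *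
        (Function.surjInv hπ.surj q')⁻¹) * (Function.surjInv hπ.surj q)⁻¹
    obtain ⟨n, hn⟩ := hπ.ker (Function.surjInv hπ.surj (q * q') *
      (Function.surjInv hπ.surj q * Function.surjInv hπ.surj q')⁻¹) (by
        rw [map_mul, map_inv, map_mul, Function.surjInv_eq hπ.surj, Function.surjInv_eq hπ.surj,
          Function.surjInv_eq hπ.surj, mul_inv_cancel])
    have hn' : Function.surjInv hπ.surj (q * q') =
        z ^ n * (Function.surjInv hπ.surj q * Function.surjInv hπ.surj q') := by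
      rw [← hn, inv_mul_cancel_right]
    have hc : ∀ g : G, Commute (z ^ n) g := fun g => Commute.zpow_left (hπ.cen g) n
    rw [hn']
    generalize Function.surjInv hπ.surj q = a
    generalize Function.surjInv hπ.surj q' = b
    have h1 := (hc (a * b * r.1)).eq
    calc z ^ n * (a * b) * r.1 * (z ^ n * (a * b))⁻¹
        = (z ^ n * (a * b * r.1)) * ((a * b)⁻¹ * (z ^ n)⁻¹) := by
          rw [mul_inv_rev]; simp only [mul_assoc]
      _ = a * b * r.1 * z ^ n * ((a * b)⁻¹ * (z ^ n)⁻¹) := by rw [h1]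
      _ = a * b * r.1 * (z ^ n * (a * b)⁻¹) * (z ^ n)⁻¹ := by simp only [mul_assoc]
      _ = a * b * r.1 * ((a * b)⁻¹ * z ^ n) * (z ^ n)⁻¹ := by rw [(hc (a * b)⁻¹).eq]
      _ = a * (b * r.1 * b⁻¹) * a⁻¹ := by
          rw [mul_inv_rev]; simp only [mul_assoc, mul_inv_cancel, mul_one]

section Roots

variable {π : G →* Q} {z : G} (hπ : CycExt π z) (l : ℕ)

/-- `Map(R,V)`. -/
abbrev MR (V : Rep.{0} k Q) : Rep.{0} k Q :=
  @Mp k _ Q _ (Rt z l) (conjAct hπ l) V

/-- The constant functions `V → Map(R,V)`. -/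
abbrev mrConst (V : Rep.{0} k Q) : V ⟶ MR hπ l V :=
  @mpConst k _ Q _ (Rt z l) (conjAct hπ l) V

/-- The stabilizer in `Q` of a root. -/
abbrev Qr (r : Rt z l) : Subgroup Q := @MulAction.stabilizer Q (Rt z l) _ (conjAct hπ l) r

/-- The centralizer of an element. -/
abbrev Cn (r : G) : Subgroup G := Subgroup.centralizer {r}

variable {l}

lemma conjAct_smul (g : G) (r : Rt z l) :
    ((conjAct hπ l).smul (π g) r).1 = g * r.1 * g⁻¹ := by
  change Function.surjInv hπ.surj (π g) * r.1 * (Function.surjInv hπ.surj (π g))⁻¹ = g * r.1 * g⁻¹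
  obtain ⟨n, hn⟩ := hπ.ker (Function.surjInv hπ.surj (π g) * g⁻¹) (by
    rw [map_mul, map_inv, Function.surjInv_eq hπ.surj, mul_inv_cancel])
  have hn' : Function.surjInv hπ.surj (π g) = z ^ n * g := by
    rw [← hn, inv_mul_cancel_right]
  have hc : ∀ g : G, Commute (z ^ n) g := fun g => Commute.zpow_left (hπ.cen g) n
  rw [hn']
  have h1 := (hc (g * r.1)).eq
  calc z ^ n * g * r.1 * (z ^ n * g)⁻¹
      = (z ^ n * (g * r.1)) * (g⁻¹ * (z ^ n)⁻¹) := by rw [mul_inv_rev]; simp only [mul_assoc]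
    _ = g * r.1 * (z ^ n * g⁻¹) * (z ^ n)⁻¹ := by rw [h1]; simp only [mul_assoc]
    _ = g * r.1 * g⁻¹ := by rw [(hc g⁻¹).eq]; simp only [mul_assoc, mul_inv_cancel, mul_one]

lemma mem_Qr (r : Rt z l) (g : G) : π g ∈ Qr hπ l r ↔ g * r.1 = r.1 * g := by
  have h1 : π g ∈ Qr hπ l r ↔ (conjAct hπ l).smul (π g) r = r := Iff.rfl
  rw [h1, Subtype.ext_iff, conjAct_smul]
  exact mul_inv_eq_iff_eq_mul

lemma mem_Cn {r g : G} : g ∈ Cn r ↔ g * r = r * g := by
  rw [Subgroup.mem_centralizer_iff]
  constructor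
  · intro h
    exact (h r rfl).symm
  · rintro h _ rfl
    exact h.symm

/-- The projection `C_G(r) → Q_r`. -/
def crMap (r : Rt z l) : Cn r.1 →* Qr hπ l r :=
  (π.comp (Cn r.1).subtype).codRestrict (Qr hπ l r) (fun x => (mem_Qr hπ r x.1).2 (mem_Cn.1 x.2))

lemma crMap_apply (r : Rt z l) (x : Cn r.1) : (crMap hπ r x : Q) = π x.1 := rfl

include hπ in
lemma z_mem_Cn (g : G) : z ∈ Cn g := mem_Cn.2 (hπ.cen g)

/-- `C_G(r) → Q_r` is a central extension with kernel generated by `z`. -/
theorem crCyc (r : Rt z l) : CycExt (crMap hπ r) ⟨z, z_mem_Cn hπ r.1⟩ := by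
  refine ⟨?_, ?_, ?_, ?_, ?_⟩
  · rintro ⟨q, hq⟩
    obtain ⟨g, rfl⟩ := hπ.surj q
    exact ⟨⟨g, mem_Cn.2 ((mem_Qr hπ r g).1 hq)⟩, rfl⟩
  · exact Subtype.ext hπ.map_z
  · intro g hg
    obtain ⟨n, hn⟩ := hπ.ker g.1 (congrArg Subtype.val hg)
    exact ⟨n, Subtype.ext (by rw [hn]; rfl)⟩
  · intro n hn
    exact hπ.ord n (congrArg Subtype.val hn)
  · intro g
    exact Subtype.ext (hπ.cen g.1)

end Roots

end

end Pool.MP0c3001.DV
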