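import Pool.Agent.Lib.MP_0c3001_gt.DV.Defs

/-!
# Campaign DV: adjoining an `l`-th root of a central element
-/

set_option autoImplicit false

namespace Pool.MP0c3001.DV

noncomputable section

variable {G Q E : Type} [Group G] [Group Q] [Group E]

/-- `E` is generated by `ι(G)` and a central element `w` with `w^l = ι(z)`, `ι(G)` has index `l`. -/
structure RootExt (ι : G →* E) (w : E) (z : G) (l : ℕ) : Prop where
  inj : Function.Injective ι
  cen : ∀ x : E, w * x = x * w
  pow : w ^ l = ι z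
  gen : ∀ x : E, ∃ (g : G) (j : ℕ), j < l ∧ x = ι g * w ^ j
  uniq : ∀ (g g' : G) (j j' : ℕ), j < l → j' < l → ι g * w ^ j = ι g' * w ^ j' → j = j'

variable {ι : G →* E} {w : E} {z : G} {l : ℕ}

/-- the `G`-coordinate -/
def RootExt.gc (h : RootExt ι w z l) (x : E) : G := (h.gen x).choose

/-- the exponent of `w` -/
def RootExt.jc (h : RootExt ι w z l) (x : E) : ℕ := (h.gen x).choose_spec.choose

lemma RootExt.jc_lt (h : RootExt ι w z l) (x : E) : h.jc x < l :=
  (h.gen x).choose_spec.choose_spec.1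

lemma RootExt.eq (h : RootExt ι w z l) (x : E) : x = ι (h.gc x) * w ^ h.jc x :=
  (h.gen x).choose_spec.choose_spec.2

lemma RootExt.coord (h : RootExt ι w z l) {x : E} {g : G} {j : ℕ} (hj : j < l)
    (hx : x = ι g * w ^ j) : h.gc x = g ∧ h.jc x = j := by
  have h1 := h.eq x
  have h2 : h.jc x = j := h.uniq _ _ _ _ (h.jc_lt x) hj (h1.symm.trans hx)
  refine ⟨?_, h2⟩
  have h3 : ι (h.gc x) * w ^ j = ι g * w ^ j := by
    rw [← hx, ← h2]
    exact h1.symm
  exact h.inj (mul_right_cancel h3)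

/-- The universal property of `E`: a homomorphism `A : G → H` and an element `W` with
`W^l = A(z)` commuting with `A(G)`. -/
def RootExt.lift (h : RootExt ι w z l) {H : Type*} [Monoid H] (A : G →* H) (W : H)
    (hc : ∀ g, W * A g = A g * W) (hp : W ^ l = A z) : E →* H where
  toFun x := A (h.gc x) * W ^ h.jc x
  map_one' := by
    have hl : 0 < l := lt_of_le_of_lt (Nat.zero_le _) (h.jc_lt 1)
    obtain ⟨h1, h2⟩ := h.coord (x := 1) (g := 1) (j := 0) hl (by simp)
    rw [h1, h2]
    simp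
  map_mul' x y := by
    have hc' : ∀ (g : G) (n : ℕ), W ^ n * A g = A g * W ^ n := fun g n =>
      Commute.pow_left (hc g) n
    have hw : ∀ (g : G) (n : ℕ), w ^ n * ι g = ι g * w ^ n := fun g n =>
      Commute.pow_left (h.cen (ι g)) n
    have e : x * y = ι (h.gc x * h.gc y) * w ^ (h.jc x + h.jc y) := by
      conv_lhs => rw [h.eq x, h.eq y]
      rw [map_mul, pow_add]
      calc ι (h.gc x) * w ^ h.jc x * (ι (h.gc y) * w ^ h.jc y)
          = ι (h.gc x) * (w ^ h.jc x * ι (h.gc y)) * w ^ h.jc y := by simp only [mul_assoc]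
        _ = _ := by rw [hw]; simp only [mul_assoc]
    have e' : A (h.gc x) * W ^ h.jc x * (A (h.gc y) * W ^ h.jc y) =
        A (h.gc x * h.gc y) * W ^ (h.jc x + h.jc y) := by
      rw [map_mul, pow_add]
      calc A (h.gc x) * W ^ h.jc x * (A (h.gc y) * W ^ h.jc y)
          = A (h.gc x) * (W ^ h.jc x * A (h.gc y)) * W ^ h.jc y := by simp only [mul_assoc]
        _ = _ := by rw [hc']; simp only [mul_assoc]
    rw [e']
    by_cases hlt : h.jc x + h.jc y < l
    · obtain ⟨h1, h2⟩ := h.coord hlt e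
      rw [h1, h2]
    · obtain ⟨n, hn⟩ : ∃ n, h.jc x + h.jc y = l + n := ⟨h.jc x + h.jc y - l, by omega⟩
      have hn' : n < l := by
        have h1 := h.jc_lt x
        have h2 := h.jc_lt y
        omega
      have e2 : x * y = ι (h.gc x * h.gc y * z) * w ^ n := by
        rw [e, hn, pow_add, h.pow, map_mul _ _ z, mul_assoc]
      obtain ⟨h1, h2⟩ := h.coord hn' e2
      rw [h1, h2, hn, pow_add, hp, map_mul _ _ z, mul_assoc]

lemma RootExt.lift_mul (h : RootExt ι w z l) {H : Type*} [Monoid H] (A : G →* H) (W : H)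
    (hc : ∀ g, W * A g = A g * W) (hp : W ^ l = A z) (g : G) (j : ℕ) (hj : j < l) :
    h.lift A W hc hp (ι g * w ^ j) = A g * W ^ j := by
  obtain ⟨h1, h2⟩ := h.coord hj (rfl : ι g * w ^ j = ι g * w ^ j)
  change A (h.gc _) * W ^ h.jc _ = _
  rw [h1, h2]

lemma RootExt.lift_ι (h : RootExt ι w z l) {H : Type*} [Monoid H] (A : G →* H) (W : H)
    (hc : ∀ g, W * A g = A g * W) (hp : W ^ l = A z) (g : G) :
    h.lift A W hc hp (ι g) = A g := by
  have hl : 0 < l := lt_of_le_of_lt (Nat.zero_le _) (h.jc_lt 1)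
  have := h.lift_mul A W hc hp g 0 hl
  simpa using this

lemma RootExt.lift_w (h : RootExt ι w z l) {H : Type*} [Monoid H] (A : G →* H) (W : H)
    (hc : ∀ g, W * A g = A g * W) (hp : W ^ l = A z) :
    h.lift A W hc hp w = W := by
  have hl : 0 < l := lt_of_le_of_lt (Nat.zero_le _) (h.jc_lt 1)
  rcases Nat.lt_or_ge 1 l with h1 | h1
  · have := h.lift_mul A W hc hp 1 1 h1
    simpa using this
  · obtain rfl : l = 1 := by omega
    have h2 : w = ι z := by simpa using h.pow
    have h3 : W = A z := by simpa using hp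
    exact (congrArg (h.lift A W hc hp) h2).trans ((h.lift_ι A W hc hp z).trans h3.symm)

/-- A property of elements of `E` which holds for `ι(G)` and `w` and is closed under products holds
everywhere. -/
lemma RootExt.induct (h : RootExt ι w z l) {p : E → Prop} (h1 : ∀ g, p (ι g)) (h2 : p w)
    (h3 : ∀ x y, p x → p y → p (x * y)) (x : E) : p x := by
  have h4 : ∀ n : ℕ, p (w ^ n) := by
    intro n
    induction n with
    | zero =>
      have := h1 1
      rw [map_one] at this
      rwa [pow_zero]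
    | succ n ih =>
      rw [pow_succ]
      exact h3 _ _ ih h2
  rw [h.eq x]
  exact h3 _ _ (h1 _) (h4 _)

/-- The projection `E → Q` extending `π : G → Q`. -/
def RootExt.pr (h : RootExt ι w z l) {π : G →* Q} (hz : π z = 1) : E →* Q :=
  h.lift π 1 (fun g => by rw [one_mul, mul_one]) (by rw [one_pow, hz])

lemma RootExt.pr_ι (h : RootExt ι w z l) {π : G →* Q} (hz : π z = 1) (g : G) :
    h.pr hz (ι g) = π g := h.lift_ι _ _ _ _ g

lemma RootExt.pr_w (h : RootExt ι w z l) {π : G →* Q} (hz : π z = 1) : h.pr hz w = 1 :=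
  h.lift_w _ _ _ _

/-- Existence of `E = (G × ⟨w⟩)/(w^l = z)`. -/
theorem exists_rootExt (z : G) (hz : ∀ g : G, z * g = g * z) (hord : ∀ n : ℤ, z ^ n = 1 → n = 0)
    (l : ℕ) (hl : 0 < l) :
    ∃ (E : Type) (_ : Group E) (ι : G →* E) (w : E), RootExt ι w z l := by
  let u : G × Multiplicative ℤ := (z, Multiplicative.ofAdd (-(l : ℤ)))
  have hu : ∀ x : G × Multiplicative ℤ, u * x = x * u := by
    intro x
    refine Prod.ext (hz x.1) (mul_comm _ _)
  have hN : (Subgroup.zpowers u).Normal := by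
    constructor
    intro n hn g
    obtain ⟨m, rfl⟩ := Subgroup.mem_zpowers_iff.1 hn
    have hc : Commute (u ^ m) g := Commute.zpow_left (hu g) m
    rw [← hc.eq, mul_inv_cancel_right]
    exact hn
  let p := QuotientGroup.mk' (Subgroup.zpowers u)
  have hp : ∀ x, p x = 1 ↔ ∃ m : ℤ, u ^ m = x := by
    intro x
    rw [← MonoidHom.mem_ker, QuotientGroup.ker_mk', Subgroup.mem_zpowers_iff]
  have hum : ∀ m : ℤ, u ^ m = (z ^ m, Multiplicative.ofAdd (-(l : ℤ) * m)) := by
    intro m
    refine Prod.ext rfl ?_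
    apply Multiplicative.toAdd.injective
    change (Multiplicative.ofAdd (-(l : ℤ)) ^ m).toAdd = -(l : ℤ) * m
    rw [toAdd_zpow, toAdd_ofAdd, smul_eq_mul, mul_comm]
  let t : G × Multiplicative ℤ := (1, Multiplicative.ofAdd 1)
  have htn : ∀ n : ℤ, t ^ n = (1, Multiplicative.ofAdd n) := by
    intro n
    refine Prod.ext (one_zpow n) ?_
    apply Multiplicative.toAdd.injective
    change (Multiplicative.ofAdd (1 : ℤ) ^ n).toAdd = n
    rw [toAdd_zpow, toAdd_ofAdd, smul_eq_mul, mul_one]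
  refine ⟨(G × Multiplicative ℤ) ⧸ Subgroup.zpowers u, inferInstance,
    p.comp (MonoidHom.inl G (Multiplicative ℤ)), p t, ?_, ?_, ?_, ?_, ?_⟩
  · rw [injective_iff_map_eq_one]
    intro g hg
    obtain ⟨m, hm⟩ := (hp _).1 hg
    rw [hum] at hm
    have h1 : z ^ m = g := congrArg Prod.fst hm
    have h2 : -(l : ℤ) * m = 0 := congrArg (fun x : G × Multiplicative ℤ => x.2.toAdd) hm
    have h3 : m = 0 := by
      rcases mul_eq_zero.1 h2 with h | h
      · omega
      · exact h
    rw [← h1, h3, zpow_zero]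
  · intro x
    obtain ⟨x, rfl⟩ := QuotientGroup.mk'_surjective _ x
    change p t * p x = p x * p t
    rw [← map_mul, ← map_mul]
    congr 1
    refine Prod.ext ?_ (mul_comm _ _)
    change 1 * x.1 = x.1 * 1
    rw [one_mul, mul_one]
  · change (p t) ^ l = p (z, 1)
    rw [← map_pow]
    have h1 : p ((z, 1) * (t ^ l)⁻¹) = 1 := by
      rw [hp]
      refine ⟨1, ?_⟩
      rw [hum]
      have h2 := htn (l : ℤ)
      rw [zpow_natCast] at h2
      rw [h2]
      refine Prod.ext ?_ ?_
      · simp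
      · apply Multiplicative.toAdd.injective
        simp
    rw [map_mul, map_inv, mul_inv_eq_one] at h1
    exact h1.symm
  · intro x
    obtain ⟨⟨g, n⟩, rfl⟩ := QuotientGroup.mk'_surjective _ x
    have hl' : (0 : ℤ) < l := by exact_mod_cast hl
    have h0 := Int.emod_nonneg n.toAdd hl'.ne'
    have h1 := Int.emod_lt_of_pos n.toAdd hl'
    have h2 := Int.emod_add_mul_ediv n.toAdd l
    refine ⟨g * z ^ (n.toAdd / l), (n.toAdd % l).toNat, by omega, ?_⟩
    change p (g, n) = p (g * z ^ (n.toAdd / (l : ℤ)), 1) * p t ^ (n.toAdd % (l : ℤ)).toNat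
    rw [← map_pow, ← map_mul, ← mul_inv_eq_one, ← map_inv, ← map_mul, hp]
    refine ⟨-(n.toAdd / l), ?_⟩
    have h3 := htn ((n.toAdd % (l : ℤ)).toNat : ℤ)
    rw [zpow_natCast, Int.toNat_of_nonneg h0] at h3
    rw [h3, hum]
    refine Prod.ext ?_ ?_
    · change z ^ (-(n.toAdd / (l : ℤ))) = g * (g * z ^ (n.toAdd / (l : ℤ)) * 1)⁻¹
      rw [mul_one, mul_inv_rev, ← zpow_neg]
      have hc : Commute (z ^ (-(n.toAdd / (l : ℤ)))) g⁻¹ := Commute.zpow_left (hz g⁻¹) _
      rw [hc.eq, mul_inv_cancel_left]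
    · apply Multiplicative.toAdd.injective
      change -(l : ℤ) * (-(n.toAdd / (l : ℤ))) =
        n.toAdd + -((0 : ℤ) + n.toAdd % (l : ℤ))
      linarith
  · intro g g' j j' hj hj' h
    have h1 : p (g, 1) * p t ^ j = p (g', 1) * p t ^ j' := h
    rw [← map_pow, ← map_pow, ← map_mul, ← map_mul, ← mul_inv_eq_one, ← map_inv, ← map_mul,
      hp] at h1
    obtain ⟨m, hm⟩ := h1
    have h2 := htn (j : ℤ)
    have h3 := htn (j' : ℤ)
    rw [zpow_natCast] at h2 h3
    rw [hum, h2, h3] at hm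
    have h4 : -(l : ℤ) * m = (0 : ℤ) + j + -((0 : ℤ) + j') :=
      congrArg (fun x : G × Multiplicative ℤ => x.2.toAdd) hm
    have h4' : (l : ℤ) * m = j' - j := by linarith
    have h5 : m = 0 := by
      have h6 : (l : ℤ) * m < l := by omega
      have h7 : -(l : ℤ) < l * m := by omega
      have hl' : (0 : ℤ) < l := by exact_mod_cast hl
      by_contra hne
      rcases lt_or_gt_of_ne hne with h8 | h8
      · nlinarith
      · nlinarith
    rw [h5, mul_zero] at h4'
    omega

end

end Pool.MP0c3001.DV
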