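import Mathlib

/-!
# FR: an element which lies in a copy of `ℤ[1/l]` for every prime `l` lies in every subgroup of finite index
-/

set_option autoImplicit false

namespace Pool.MP0c3001.DV

theorem exists_root_of_zinv {G : Type} [Group G] {z : G} {l : ℕ} {D : Subgroup G} (hz : z ∈ D)
    (e : D ≃* Multiplicative (Localization.Away (l : ℤ))) (j : ℕ) : ∃ x : G, x ^ (l ^ j) = z := by
  let S := Localization.Away (l : ℤ)
  let y : S := (e ⟨z, hz⟩).toAdd
  let u : S := IsLocalization.Away.invSelf (l : ℤ)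
  have hu : (algebraMap ℤ S (l : ℤ)) * u = 1 := IsLocalization.Away.mul_invSelf (l : ℤ)
  have hu' : (l : S) * u = 1 := by
    have h1 : (algebraMap ℤ S (l : ℤ)) = (l : S) := by simp
    rw [← h1]
    exact hu
  have hw : (l ^ j) • (y * u ^ j) = y := by
    rw [nsmul_eq_mul, Nat.cast_pow]
    calc (l : S) ^ j * (y * u ^ j) = y * ((l : S) * u) ^ j := by ring
      _ = y := by rw [hu', one_pow, mul_one]
  refine ⟨(e.symm (Multiplicative.ofAdd (y * u ^ j)) : D), ?_⟩
  rw [← Subgroup.coe_pow, ← map_pow, ← ofAdd_nsmul, hw]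
  change ((e.symm (e ⟨z, hz⟩) : D) : G) = z
  rw [e.symm_apply_apply]

theorem mem_finiteIndex {G : Type} [Group G] {z : G}
    (h : ∀ l : ℕ, l.Prime → ∃ D : Subgroup G, z ∈ D ∧
      Nonempty (D ≃* Multiplicative (Localization.Away (l : ℤ))))
    (H : Subgroup G) (hH : H.FiniteIndex) : z ∈ H := by
  have hfin : Finite (G ⧸ H.normalCore) := inferInstance
  have hz1 : (QuotientGroup.mk z : G ⧸ H.normalCore) = 1 := by
    rw [← orderOf_eq_one_iff]
    by_contra ho
    obtain ⟨l, hl, hlo⟩ := Nat.exists_prime_and_dvd ho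
    obtain ⟨D, hD, ⟨e⟩⟩ := h l hl
    have hN : Nat.card (G ⧸ H.normalCore) ≠ 0 := Nat.card_pos.ne'
    obtain ⟨a, b, hb, hab⟩ := Nat.exists_eq_pow_mul_and_not_dvd hN l hl.ne_one
    obtain ⟨x, hx⟩ := exists_root_of_zinv hD e a
    apply hb
    refine hlo.trans (orderOf_dvd_of_pow_eq_one ?_)
    rw [← hx, QuotientGroup.mk_pow, ← pow_mul, ← hab]
    exact pow_card_eq_one'
  have h2 : z ∈ H.normalCore := (QuotientGroup.eq_one_iff z).1 hz1
  exact H.normalCore_le h2

end Pool.MP0c3001.DV
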