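import Pool.Agent.Lib.MP_0c3001_gt.Mg.G022
import Pool.Agent.Lib.MP_0c3001_gt.Mg.G017
import Pool.Agent.Lib.MP_0c3001_gt.Mg.G019

/-!
# G4b: the operator `ν ^ N` for the Euler classes is divisible by `l`

Let `x₀ = Pi.single 0 1`, `x₁ = Pi.single 1 1`, `e₀ = ex .. x₀`, `e₁ = ex .. x₁`.  `primitive_data'` (G1) for `x₀`
(`v = x₀`, `∑ j, x₀ j * x₀ j = 1`) gives `G', p, ϖ, z`; `hgood` gives `Kills k G' m₀ d`; put `N = d + 1`, so `Kills k G' m₀ N`, `1 ≤ N`.
Kernel property: `gysin_inj` with `Fits ϖ z (cxk .. x₀)` (`fits_of`, Bary.lean).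
For a prime `l ∤ m₀`: `root_dvd` (G2) gives for every root `r : Rt z l` some `a` with
`Dvd l (epow (rs .. (ex (x₁ - a • x₀))) N)`, and `ex (x₁ - a • x₀) = e₁ - a • e₀` (`ex_add`, `ex_zsmul`).  `nu_dvd` (G3;
commutation: `ex_commute`): for `x ∈ evA i` the component of `ν ^ N x` in degree `j = 2 (i + l N) ≥ l N` is `l • y'`.
`ν ^ N x ∈ evA (i + l N)`: `opE_evA` and induction on powers: `X ^ n` maps `evA i` to `evA (i + n)`, so `ν = Y ^ l - Y X ^ (l-1)` maps
`evA i` to `evA (i + l)` (`l ≥ 1`), `ν ^ N` maps `evA i` to `evA (i + l N)`.  So `y = Pi.single j y'` works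
(all other components of `ν ^ N x` vanish).
-/

set_option autoImplicit false

namespace Pool.MP0c3001.DV

open CategoryTheory CategoryTheory.Abelian Limits

noncomputable section

variable {k : Type} [CommRing k] {G Q : Type} [Group G] [Group Q]

private lemma pow_evA (e : HH k Q (Zt k Q) 2) (V : Rep.{0} k Q) (n i : ℕ) (x : TH k Q V)
    (hx : x ∈ evA k Q V i) : (opE e V ^ n) x ∈ evA k Q V (i + n) := by
  induction n with
  | zero => exact hx
  | succ n ih =>
    rw [pow_succ']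
    exact opE_evA e V (i + n) _ ih

private lemma nu_evA (e₀ e₁ : HH k Q (Zt k Q) 2) (V : Rep.{0} k Q) (l : ℕ) (hl : 1 ≤ l) (i : ℕ)
    (x : TH k Q V) (hx : x ∈ evA k Q V i) :
    (opE e₁ V ^ l - opE e₁ V * opE e₀ V ^ (l - 1)) x ∈ evA k Q V (i + l) := by
  have h1 := pow_evA e₁ V l i x hx
  have h2 := opE_evA e₁ V _ _ (pow_evA e₀ V (l - 1) i x hx)
  have h3 : i + (l - 1) + 1 = i + l := by omega
  rw [h3] at h2
  exact Submodule.sub_mem _ h1 h2

private lemma nu_pow_evA (e₀ e₁ : HH k Q (Zt k Q) 2) (V : Rep.{0} k Q) (l : ℕ) (hl : 1 ≤ l)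
    (n i : ℕ) (x : TH k Q V) (hx : x ∈ evA k Q V i) :
    ((opE e₁ V ^ l - opE e₁ V * opE e₀ V ^ (l - 1)) ^ n) x ∈ evA k Q V (i + l * n) := by
  induction n with
  | zero => exact hx
  | succ n ih =>
    rw [pow_succ']
    have h := nu_evA e₀ e₁ V l hl (i + l * n) _ ih
    have h3 : i + l * n + l = i + l * (n + 1) := by ring
    rw [h3] at h
    exact h

theorem nu_op (hk : Function.Bijective (Int.cast : ℤ → k)) (π : G →* Q)
    (hπ : Function.Surjective π) (s : Q → G) (hs : IsSec π s)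
    (hcen : π.ker ≤ Subgroup.center G) {r : ℕ} (e : Additive π.ker ≃+ (Fin (r + 2) → ℤ))
    (hgood : ∀ (G' : Type) [Group G'] (p : G →* G'), Function.Surjective p → p.ker ≤ π.ker →
      Nonempty (Additive p.ker ≃+ (Fin (r + 1) → ℤ)) → ∃ m d : ℕ, 0 < m ∧ Kills k G' m d) :
    ∃ N m₀ : ℕ, 0 < m₀ ∧
      (∀ (V : Rep.{0} k Q) (i : ℕ), N ≤ i → ∀ α : HH k Q V i,
        (ex k π s hs hcen e (Pi.single 0 1)).comp α (show 2 + i = i + 2 by omega) = 0 →
          m₀ • α = 0) ∧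
      ∀ l : ℕ, l.Prime → ¬ l ∣ m₀ → ∀ i, ∀ x ∈ evA k Q (Zt k Q) i,
        ∃ y ∈ evA k Q (Zt k Q) (i + l * N),
          ((opE (ex k π s hs hcen e (Pi.single 1 1)) (Zt k Q) ^ l -
            opE (ex k π s hs hcen e (Pi.single 1 1)) (Zt k Q) *
              opE (ex k π s hs hcen e (Pi.single 0 1)) (Zt k Q) ^ (l - 1)) ^ N) x = l • y := by
  have hv : ∑ j, (Pi.single 0 1 : Fin (r + 2) → ℤ) j * (Pi.single 0 1 : Fin (r + 2) → ℤ) j = 1 := by
    rw [Finset.sum_eq_single 0]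
    · simp
    · intro b _ hb; simp [hb]
    · simp
  obtain ⟨G', hG', p, ϖ, z, hp, hpk, hpe, hcyc, hϖp, hpz⟩ :=
    primitive_data' π hπ hcen e (Pi.single 0 1) (Pi.single 0 1) hv
  obtain ⟨m₀, d, hm₀, hK⟩ := hgood G' p hp hpk hpe
  have hfits := fits_of (k := k) π p ϖ hϖp hcyc s hs e (Pi.single 0 1) hpz
  have hK' : Kills k G' m₀ (d + 1) := fun V i hi => hK V i (by omega)
  refine ⟨d + 1, m₀, hm₀, ?_, ?_⟩
  · intro V i hi α hα
    exact gysin_inj hcyc (isCoc_cxk k π s hs hcen e (Pi.single 0 1)) hfits hK V i (by omega)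
      (by omega) α hα
  · intro l hl hlm i x hx
    have hroot : ∀ ρ : Rt z l, ∃ a : ℤ, Dvd l
        (epow (rs (Qr hcyc l ρ).subtype (ex k π s hs hcen e (Pi.single 1 1) -
          a • ex k π s hs hcen e (Pi.single 0 1)) :
            HH k (Qr hcyc l ρ) (Zt k (Qr hcyc l ρ)) 2) (d + 1)) := by
      intro ρ
      obtain ⟨a, ha⟩ := root_dvd hk π s hs hcen e (Pi.single 0 1) (Pi.single 1 1) p hp hpk hcyc
        hϖp hpz (show 1 ≤ d + 1 by omega) hK' hl hlm ρ
      refine ⟨a, ?_⟩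
      have h1 : ex k π s hs hcen e ((Pi.single 1 1 : Fin (r + 2) → ℤ) - a • Pi.single 0 1) =
          ex k π s hs hcen e (Pi.single 1 1) - a • ex k π s hs hcen e (Pi.single 0 1) := by
        rw [sub_eq_add_neg, ← neg_smul, ex_add, ex_zsmul, neg_smul, ← sub_eq_add_neg]
      rw [h1] at ha
      exact ha
    have hle : l * (d + 1) ≤ 2 * (i + l * (d + 1)) := by omega
    obtain ⟨y', hy'⟩ := nu_dvd hk hcyc hl hlm (show 1 ≤ d + 1 by omega) hK'
      (ex k π s hs hcen e (Pi.single 0 1)) (ex k π s hs hcen e (Pi.single 1 1))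
      (ex_commute π s hs hcen e (Pi.single 0 1) (Pi.single 1 1)) hroot x
      (2 * (i + l * (d + 1))) hle
    have hmem := nu_pow_evA (ex k π s hs hcen e (Pi.single 0 1))
      (ex k π s hs hcen e (Pi.single 1 1)) (Zt k Q) l hl.one_le (d + 1) i x hx
    refine ⟨Pi.single (2 * (i + l * (d + 1))) y', ?_, ?_⟩
    · intro j hj
      exact Pi.single_eq_of_ne hj _
    · funext j
      by_cases hj : j = 2 * (i + l * (d + 1))
      · subst hj
        rw [Pi.smul_apply, Pi.single_eq_same]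
        exact hy'
      · rw [Pi.smul_apply, Pi.single_eq_of_ne hj, smul_zero]
        exact hmem j hj

end

end Pool.MP0c3001.DV
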