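import Pool.Agent.Lib.MP_0c3001_gt.Mg.G006

/-!
# LA3: the linear algebra of section 6.4, reduction to the torsion free case

`M' = M ⧸ Submodule.torsion ℤ M` (torsion free: `Submodule.QuotientTorsion`), `q : M → M'` the projection, `X', Y'` the
induced endomorphisms (`Submodule.mapQ`; the torsion submodule is invariant), `A' i = (A i).map q`.  Check the
hypotheses of `lin_alg_tf`: finitely generated (`Submodule.FG.map`); `hprim`: if `(a X' + b Y') (q x) = 0`, `x ∈ A i`, then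
`n • (a X + b Y) x = 0`, `n > 0`, so `(a X + b Y) (n • x) = 0`, `m • n • x = 0`, `q x = 0`; the other statements are images
under `q` (`q ((Y ^ l - Y X ^ (l-1)) ^ N x) = (Y' ^ l - ..) ^ N (q x)`: powers, sums, products of intertwined maps).
Conclusion: `(X' ^ j) (q α₀) = 0`, i.e. `(X ^ j) α₀` is torsion.
-/

set_option autoImplicit false

namespace Pool.MP0c3001.DV

private def torS (M : Type) [AddCommGroup M] : Submodule ℤ M where
  carrier := {x | ∃ n : ℕ, 0 < n ∧ n • x = 0}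
  zero_mem' := ⟨1, Nat.one_pos, smul_zero _⟩
  add_mem' := by
    rintro x y ⟨n, hn, hx⟩ ⟨m, hm, hy⟩
    refine ⟨n * m, Nat.mul_pos hn hm, ?_⟩
    have h1 : (n * m) • x = 0 := by rw [mul_comm, mul_smul, hx, smul_zero]
    have h2 : (n * m) • y = 0 := by rw [mul_smul, hy, smul_zero]
    rw [smul_add, h1, h2, add_zero]
  smul_mem' := by
    rintro c x ⟨n, hn, hx⟩
    refine ⟨n, hn, ?_⟩
    rw [smul_comm, hx, smul_zero]

private def Itw {M M' : Type} [AddCommGroup M] [AddCommGroup M'] (q : M →ₗ[ℤ] M')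
    (P : Module.End ℤ M) (P' : Module.End ℤ M') : Prop := ∀ x, P' (q x) = q (P x)

section

variable {M M' : Type} [AddCommGroup M] [AddCommGroup M'] {q : M →ₗ[ℤ] M'}
  {P R : Module.End ℤ M} {P' R' : Module.End ℤ M'}

private lemma Itw.mul (h : Itw q P P') (h' : Itw q R R') : Itw q (P * R) (P' * R') := by
  intro x
  rw [Module.End.mul_apply, Module.End.mul_apply, h' x, h]

private lemma Itw.sub (h : Itw q P P') (h' : Itw q R R') : Itw q (P - R) (P' - R') := by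
  intro x
  rw [LinearMap.sub_apply, LinearMap.sub_apply, h' x, h, map_sub]

private lemma Itw.add (h : Itw q P P') (h' : Itw q R R') : Itw q (P + R) (P' + R') := by
  intro x
  rw [LinearMap.add_apply, LinearMap.add_apply, h' x, h, map_add]

private lemma Itw.smul (h : Itw q P P') (a : ℤ) : Itw q (a • P) (a • P') := by
  intro x
  rw [LinearMap.smul_apply, LinearMap.smul_apply, h, map_smul]

private lemma Itw.pow (h : Itw q P P') (n : ℕ) : Itw q (P ^ n) (P' ^ n) := by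
  induction n with
  | zero =>
    intro x
    rw [pow_zero, pow_zero, Module.End.one_apply, Module.End.one_apply]
  | succ n ih =>
    rw [pow_succ, pow_succ]
    exact ih.mul h

end

theorem lin_alg {M : Type} [AddCommGroup M] (X Y : Module.End ℤ M) (hXY : Commute X Y)
    (A : ℕ → Submodule ℤ M) (hfin : ∀ i, (A i).FG) (hX : ∀ i, ∀ x ∈ A i, X x ∈ A (i + 1))
    (hY : ∀ i, ∀ x ∈ A i, Y x ∈ A (i + 1))
    (hprim : ∀ a b : ℤ, IsCoprime a b → ∃ m i₀ : ℕ, 0 < m ∧ ∀ i, i₀ ≤ i →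
      (∀ x ∈ A i, (a • X + b • Y) x = 0 → m • x = 0) ∧
      ∀ y ∈ A (i + 1), ∃ x ∈ A i, (a • X + b • Y) x = m • y)
    (N m₀ : ℕ) (hm₀ : 0 < m₀)
    (hnu : ∀ l : ℕ, l.Prime → ¬ l ∣ m₀ → ∀ i, ∀ x ∈ A i, ∃ y ∈ A (i + l * N),
      ((Y ^ l - Y * X ^ (l - 1)) ^ N) x = l • y)
    (i₁ : ℕ) (α₀ : M) (hα₀ : α₀ ∈ A i₁) : ∃ t j : ℕ, 0 < t ∧ t • (X ^ j) α₀ = 0 := by
  have hinv : ∀ P : Module.End ℤ M, torS M ≤ (torS M).comap P := by
    rintro P x ⟨n, hn, hx⟩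
    exact ⟨n, hn, by rw [← map_nsmul, hx, map_zero]⟩
  let q : M →ₗ[ℤ] M ⧸ torS M := (torS M).mkQ
  have hq : ∀ x, q x = 0 → ∃ n : ℕ, 0 < n ∧ n • x = 0 := by
    intro x hx
    exact (Submodule.Quotient.mk_eq_zero (torS M)).1 hx
  have hq' : ∀ (x : M) (n : ℕ), 0 < n → n • x = 0 → q x = 0 := by
    intro x n hn hx
    exact (Submodule.Quotient.mk_eq_zero (torS M)).2 ⟨n, hn, hx⟩
  have hqs : Function.Surjective q := Submodule.mkQ_surjective _
  let X' : Module.End ℤ (M ⧸ torS M) := (torS M).mapQ (torS M) X (hinv X)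
  let Y' : Module.End ℤ (M ⧸ torS M) := (torS M).mapQ (torS M) Y (hinv Y)
  have hXq : Itw q X X' := fun x => rfl
  have hYq : Itw q Y Y' := fun x => rfl
  have hcomm : Commute X' Y' := by
    apply LinearMap.ext
    intro x'
    obtain ⟨x, rfl⟩ := hqs x'
    rw [(hXq.mul hYq) x, (hYq.mul hXq) x, hXY.eq]
  have htf : ∀ (n : ℕ) (x : M ⧸ torS M), 0 < n → n • x = 0 → x = 0 := by
    intro n x' hn hx
    obtain ⟨x, rfl⟩ := hqs x'
    rw [← map_nsmul] at hx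
    obtain ⟨m, hm, h⟩ := hq _ hx
    exact hq' x (m * n) (Nat.mul_pos hm hn) (by rw [mul_smul]; exact h)
  have hfin' : ∀ i, ((A i).map q).FG := fun i => (hfin i).map q
  have hX' : ∀ i, ∀ x ∈ (A i).map q, X' x ∈ (A (i + 1)).map q := by
    rintro i _ ⟨x, hx, rfl⟩
    exact ⟨X x, hX i x hx, rfl⟩
  have hY' : ∀ i, ∀ x ∈ (A i).map q, Y' x ∈ (A (i + 1)).map q := by
    rintro i _ ⟨x, hx, rfl⟩
    exact ⟨Y x, hY i x hx, rfl⟩
  have hprim' : ∀ a b : ℤ, IsCoprime a b → ∃ m i₀ : ℕ, 0 < m ∧ ∀ i, i₀ ≤ i →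
      (∀ x ∈ (A i).map q, (a • X' + b • Y') x = 0 → x = 0) ∧
      ∀ y ∈ (A (i + 1)).map q, ∃ x ∈ (A i).map q, (a • X' + b • Y') x = m • y := by
    intro a b hab
    obtain ⟨m, i₀, hm, h⟩ := hprim a b hab
    have hI : Itw q (a • X + b • Y) (a • X' + b • Y') := (hXq.smul a).add (hYq.smul b)
    refine ⟨m, i₀, hm, fun i hi => ⟨?_, ?_⟩⟩
    · rintro _ ⟨x, hx, rfl⟩ h0
      rw [hI x] at h0
      obtain ⟨n, hn, h1⟩ := hq _ h0
      rw [← map_nsmul] at h1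
      have h2 := (h i hi).1 (n • x) ((A i).smul_of_tower_mem n hx) h1
      exact hq' x (m * n) (Nat.mul_pos hm hn) (by rw [mul_smul]; exact h2)
    · rintro _ ⟨y, hy, rfl⟩
      obtain ⟨x, hx, h1⟩ := (h i hi).2 y hy
      refine ⟨q x, ⟨x, hx, rfl⟩, ?_⟩
      rw [hI x, h1, map_nsmul]
  have hnu' : ∀ l : ℕ, l.Prime → ¬ l ∣ m₀ → ∀ i, ∀ x ∈ (A i).map q,
      ∃ y ∈ (A (i + l * N)).map q, ((Y' ^ l - Y' * X' ^ (l - 1)) ^ N) x = l • y := by
    rintro l hl hlm i _ ⟨x, hx, rfl⟩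
    obtain ⟨y, hy, h1⟩ := hnu l hl hlm i x hx
    have hI : Itw q ((Y ^ l - Y * X ^ (l - 1)) ^ N) ((Y' ^ l - Y' * X' ^ (l - 1)) ^ N) :=
      ((hYq.pow l).sub (hYq.mul (hXq.pow (l - 1)))).pow N
    refine ⟨q y, ⟨y, hy, rfl⟩, ?_⟩
    rw [hI x, h1, map_nsmul]
  obtain ⟨j, hj⟩ := lin_alg_tf htf X' Y' hcomm (fun i => (A i).map q) hfin' hX' hY' hprim' N m₀
    hm₀ hnu' i₁ (q α₀) ⟨α₀, hα₀, rfl⟩
  rw [(hXq.pow j) α₀] at hj
  obtain ⟨t, ht, h⟩ := hq _ hj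
  exact ⟨t, j, ht, h⟩

end Pool.MP0c3001.DV
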