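import Pool.Agent.Lib.MP_0c3001_gt.DV.G4b
import Pool.Agent.Lib.MP_0c3001_gt.DV.LA3

/-!
# G5: a minimal bad quotient has rank at most one

`lin_alg` with `M = TH k Q (Zt k Q)`, `X = opE e₀ _`, `Y = opE e₁ _` (commute: `opE_commute`, `ex_commute`), `A i = evA k Q _ i`
(`evA_fg`: `Zt k Q` is finite over `k`; `opE_evA`), `prim_op`, `nu_op`, `α₀ = Pi.single 0 (Ext.mk₀ (𝟙 _)) ∈ A 0`:
`t • (X ^ j) α₀ = 0`.  The component in degree `2 j + 0` is `(epow e₀ j).comp (mk₀ 𝟙) = epow e₀ j` (`opE_pow_apply`), so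
`t • epow e₀ j = 0`, and `step_kills` (`m = m₀`, `d = N`) gives `Kills k Q (t * m₀ ^ j) N`.
-/

set_option autoImplicit false

namespace Pool.MP0c3001.DV

open CategoryTheory CategoryTheory.Abelian Limits

noncomputable section

variable {k : Type} [CommRing k] {G Q : Type} [Group G] [Group Q]

private def g5one (k : Type) [CommRing k] (Q : Type) [Group Q] : TH k Q (Zt k Q)
  | 0 => Ext.mk₀ (𝟙 (Zt k Q))
  | _ + 1 => 0

private lemma g5one_zero (k : Type) [CommRing k] (Q : Type) [Group Q] :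
    g5one k Q 0 = Ext.mk₀ (𝟙 (Zt k Q)) := rfl

private lemma g5one_mem (k : Type) [CommRing k] (Q : Type) [Group Q] :
    g5one k Q ∈ evA k Q (Zt k Q) 0 := by
  intro j hj
  match j, hj with
  | 0, hj => exact absurd rfl hj
  | _ + 1, _ => rfl

theorem good_of_good (hk : Function.Bijective (Int.cast : ℤ → k)) (π : G →* Q)
    (hπ : Function.Surjective π) (hcen : π.ker ≤ Subgroup.center G) {r : ℕ}
    (e : Additive π.ker ≃+ (Fin (r + 2) → ℤ)) (hfg : FgCoh k Q)
    (hgood : ∀ (G' : Type) [Group G'] (p : G →* G'), Function.Surjective p → p.ker ≤ π.ker →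
      Nonempty (Additive p.ker ≃+ (Fin (r + 1) → ℤ)) → ∃ m d : ℕ, 0 < m ∧ Kills k G' m d) :
    ∃ m d : ℕ, 0 < m ∧ Kills k Q m d := by
  obtain ⟨s, hs⟩ := exists_isSec π hπ
  obtain ⟨N, m₀, hm₀, hker, hnu⟩ := nu_op hk π hπ s hs hcen e hgood
  have hfin : Module.Finite k (Zt k Q).V := Module.Finite.self k
  obtain ⟨t, j, ht, htj⟩ := lin_alg (opE (ex k π s hs hcen e (Pi.single 0 1)) (Zt k Q))
    (opE (ex k π s hs hcen e (Pi.single 1 1)) (Zt k Q))
    (opE_commute (ex_commute π s hs hcen e _ _) _)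
    (fun i => evA k Q (Zt k Q) i) (fun i => evA_fg hfg _ hfin i)
    (fun i x hx => opE_evA _ _ i x hx) (fun i x hx => opE_evA _ _ i x hx)
    (fun a b hab => prim_op π hπ s hs hcen e hgood a b hab)
    N m₀ hm₀ (fun l hl hlm i x hx => hnu l hl hlm i x hx) 0
    (g5one k Q) (g5one_mem k Q)
  have h1 : t • epow (ex k π s hs hcen e (Pi.single 0 1)) j = 0 := by
    have h2 := congrFun htj (2 * j + 0)
    have h3 : (t • ((opE (ex k π s hs hcen e (Pi.single 0 1)) (Zt k Q) ^ j) (g5one k Q)))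
        (2 * j + 0) =
        t • ((opE (ex k π s hs hcen e (Pi.single 0 1)) (Zt k Q) ^ j) (g5one k Q)) (2 * j + 0) :=
      rfl
    rw [h3, opE_pow_apply] at h2
    have h4 : (epow (ex k π s hs hcen e (Pi.single 0 1)) j).comp (g5one k Q 0)
        (rfl : 2 * j + 0 = 2 * j + 0) = epow (ex k π s hs hcen e (Pi.single 0 1)) j := by
      rw [g5one_zero]
      exact Ext.comp_mk₀_id _
    rw [h4] at h2
    exact h2
  refine ⟨t * m₀ ^ j, N, Nat.mul_pos ht (pow_pos hm₀ j), ?_⟩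
  exact step_kills _ m₀ N hker j t h1

end

end Pool.MP0c3001.DV
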