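import Pool.Agent.Lib.MP_0c3001_gt.DV.G5
import Pool.Agent.Lib.MP_0c3001_gt.Mg.G008

/-!
# G6: a central subgroup which is not finitely generated contains a bad element

By `fg_of_good` there are `r` and a quotient `p : G → Q` with `p.ker ≤ C`, `p.ker ≅ ℤ^r` which is not good; take `r` minimal
(`Nat.find`).  `r = 0`: `p` is bijective and `Kills k G 1 (n+1)` passes to `Q` (`Kills.of_bijective`).  `r = r' + 2`: all
quotients with kernel in `p.ker` of rank `r' + 1` are good by minimality, `FgCoh k Q` by `fgCoh_quot`, so `Q` is good by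
`good_of_good`.  `r = 1`: `e : Additive p.ker ≃+ (Fin 1 → ℤ)`; `z = (e.symm (Pi.single 0 1)).toMul ∈ p.ker ≤ C`;
`CycExt p z`: the kernel consists of the powers of `z` (`e a = (e a 0) • Pi.single 0 1`), `z` has infinite order,
`z` is central.
-/

set_option autoImplicit false

namespace Pool.MP0c3001.DV

open CategoryTheory CategoryTheory.Abelian Limits

noncomputable section

variable {k : Type} [CommRing k]

theorem exists_bad (hk : Function.Bijective (Int.cast : ℤ → k)) {G : Type} [Group G] (n : ℕ)
    (hcd : Kills k G 1 (n + 1)) (hfg : FgCoh k G) (C : Subgroup G) (hC : C ≤ Subgroup.center G)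
    (hnfg : ¬ C.FG) :
    ∃ (z : G) (Q : Type) (_ : Group Q) (π : G →* Q), z ∈ C ∧ CycExt π z ∧
      ∀ m d : ℕ, 0 < m → ¬ Kills k Q m d := by
  classical
  let P : ℕ → Prop := fun r => ∃ (Q : Type) (_ : Group Q) (p : G →* Q),
    Function.Surjective p ∧ p.ker ≤ C ∧ Nonempty (Additive p.ker ≃+ (Fin r → ℤ)) ∧
      ∀ m d : ℕ, 0 < m → ¬ Kills k Q m d
  have hP : ∃ r, P r := by
    by_contra hno
    apply hnfg
    refine fg_of_good hk n hcd C hC ?_
    intro r Q _ p hp hker he
    by_contra hbad
    apply hno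
    refine ⟨r, Q, inferInstance, p, hp, hker, he, ?_⟩
    intro m d hm hkill
    exact hbad ⟨m, d, hm, hkill⟩
  obtain ⟨Q, _, p, hp, hker, ⟨e⟩, hbad⟩ := Nat.find_spec hP
  have hmin : ∀ r, r < Nat.find hP → ∀ (G' : Type) [Group G'] (p : G →* G'),
      Function.Surjective p → p.ker ≤ C → Nonempty (Additive p.ker ≃+ (Fin r → ℤ)) →
      ∃ m d : ℕ, 0 < m ∧ Kills k G' m d := by
    intro r hr G' _ p' hp' hker' he'
    by_contra hbad'
    apply Nat.find_min hP hr
    refine ⟨G', inferInstance, p', hp', hker', he', ?_⟩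
    intro m d hm hkill
    exact hbad' ⟨m, d, hm, hkill⟩
  generalize Nat.find hP = r at e hmin
  match r, e, hmin with
  | 0, e, _ =>
    exfalso
    have hinj : Function.Injective p := by
      rw [← MonoidHom.ker_eq_bot_iff, Subgroup.eq_bot_iff_forall]
      intro x hx
      have h1 : Additive.ofMul (⟨x, hx⟩ : p.ker) = 0 := by
        apply e.injective
        funext i
        exact i.elim0
      exact congrArg (fun y : Additive p.ker => ((Additive.toMul y : p.ker) : G)) h1
    exact hbad 1 (n + 1) one_pos (hcd.of_bijective p ⟨hinj, hp⟩)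
  | 1, e, _ =>
    let z₀ : p.ker := Additive.toMul (e.symm (Pi.single 0 1))
    have hez : e (Additive.ofMul z₀) = Pi.single 0 1 := e.apply_symm_apply _
    refine ⟨(z₀ : G), Q, inferInstance, p, hker z₀.2, ⟨hp, z₀.2, ?_, ?_, ?_⟩, hbad⟩
    · intro g hg
      refine ⟨e (Additive.ofMul (⟨g, hg⟩ : p.ker)) 0, ?_⟩
      have h1 : Additive.ofMul (⟨g, hg⟩ : p.ker) =
          (e (Additive.ofMul (⟨g, hg⟩ : p.ker)) 0) • Additive.ofMul z₀ := by
        apply e.injective
        rw [map_zsmul, hez]
        funext i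
        have hi : i = 0 := Subsingleton.elim _ _
        subst hi
        simp
      have h2 : (⟨g, hg⟩ : p.ker) = z₀ ^ (e (Additive.ofMul (⟨g, hg⟩ : p.ker)) 0) :=
        congrArg Additive.toMul h1
      have h3 := congrArg (fun y : p.ker => (y : G)) h2
      simpa using h3
    · intro m hm
      have h1 : z₀ ^ m = 1 := by
        apply Subtype.ext
        simpa using hm
      have h2 : m • Additive.ofMul z₀ = 0 := congrArg Additive.ofMul h1
      have h3 := congrArg e h2
      rw [map_zsmul, hez, map_zero] at h3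
      have h4 := congrFun h3 0
      simpa using h4
    · intro g
      exact ((Subgroup.mem_center_iff.1 (hC (hker z₀.2))) g).symm
  | r + 2, e, hmin =>
    exfalso
    have hcen : p.ker ≤ Subgroup.center G := hker.trans hC
    have hfgQ : FgCoh k Q := fgCoh_quot hk hfg (r + 2) Q p hp hcen ⟨e⟩
    obtain ⟨m, d, hm, hkill⟩ := good_of_good hk p hp hcen e hfgQ
      (fun G' _ p' hp' hker' he' => hmin (r + 1) (by omega) G' p' hp' (hker'.trans hker) he')
    exact hbad m d hm hkill

end

end Pool.MP0c3001.DV
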