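import Pool.Agent.Lib.MP_0c3001_gt.Mg.G020
import Pool.Agent.Lib.MP_0c3001_gt.DV.G6

/-!
# MS: Theorem S, cohomological form (complete)
-/

set_option autoImplicit false

namespace Pool.MP0c3001.DV

open CategoryTheory CategoryTheory.Abelian Limits

noncomputable section

variable {k : Type} [CommRing k]

theorem theorem_S (hk : Function.Bijective (Int.cast : ℤ → k)) {G : Type} [Group G] (n : ℕ)
    (hcd : Kills k G 1 (n + 1)) (hfg : FgCoh k G) (C : Subgroup G) (hC : C ≤ Subgroup.center G)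
    (hnfg : ¬ C.FG) :
    ∃ z ∈ C, z ≠ 1 ∧ ∀ l : ℕ, l.Prime →
      ∃ D : Subgroup G, z ∈ D ∧ Nonempty (D ≃* Multiplicative (Localization.Away (l : ℤ))) := by
  obtain ⟨z, Q, _, π, hzC, hπ, hbad⟩ := exists_bad hk n hcd hfg C hC hnfg
  refine ⟨z, hzC, ?_, fun l hl => bad_divisible hk n hcd hfg hπ hbad l hl⟩
  intro h1
  have := hπ.ord 1 (by rw [zpow_one, h1])
  exact one_ne_zero this

end

end Pool.MP0c3001.DV
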