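import Pool.Agent.Lib.MP_0c3001_gt.Mg.G006

/-!
# UA: the linear algebra of Theorem U

Only `X` is assumed to be almost bijective in large degrees (with the GIVEN constant `m`).  Conclusion: an integer `a` and
an element `t` of some `A i` with `m Y t = a X t`, no power `X ^ j` of which kills a multiple of `t`.
`lin_alg2_tf`: copy the proof of `lin_alg_tf` (LA3t.lean) up to `haXY` (`m₀ = m`).
`lin_alg2`: copy the proof of `lin_alg` (LA3.lean: reduction modulo torsion); the element `t` found in the quotient is lifted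
to `x ∈ A i`, `m • Y x - a • X x` is torsion, killed by some `n > 0`; take `t = n • x`.
-/

set_option autoImplicit false

namespace Pool.MP0c3001.DV

private def torS (M : Type) [AddCommGroup M] : Submodule ℤ M where
  carrier := {x | ∃ n : ℕ, 0 < n ∧ n • x = 0}
  zero_mem' := ⟨1, Nat.one_pos, smul_zero _⟩
  add_mem' := by
    rintro x y ⟨n, hn, hx⟩ ⟨m, hm, hy⟩
    refine ⟨n * m, Nat.mul_pos hn hm, ?_⟩
    have h1 : (n * m) • x = 0 := by rw [mul_comm, mul_smul, hx, smul_zero]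
    have h2 : (n * m) • y = 0 := by rw [mul_smul, hy, smul_zero]
    rw [smul_add, h1, h2, add_zero]
  smul_mem' := by
    rintro c x ⟨n, hn, hx⟩
    refine ⟨n, hn, ?_⟩
    rw [smul_comm, hx, smul_zero]

private def Itw {M M' : Type} [AddCommGroup M] [AddCommGroup M'] (q : M →ₗ[ℤ] M')
    (P : Module.End ℤ M) (P' : Module.End ℤ M') : Prop := ∀ x, P' (q x) = q (P x)

section

variable {M M' : Type} [AddCommGroup M] [AddCommGroup M'] {q : M →ₗ[ℤ] M'}
  {P R : Module.End ℤ M} {P' R' : Module.End ℤ M'}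

private lemma Itw.mul (h : Itw q P P') (h' : Itw q R R') : Itw q (P * R) (P' * R') := by
  intro x
  rw [Module.End.mul_apply, Module.End.mul_apply, h' x, h]

private lemma Itw.sub (h : Itw q P P') (h' : Itw q R R') : Itw q (P - R) (P' - R') := by
  intro x
  rw [LinearMap.sub_apply, LinearMap.sub_apply, h' x, h, map_sub]

private lemma Itw.add (h : Itw q P P') (h' : Itw q R R') : Itw q (P + R) (P' + R') := by
  intro x
  rw [LinearMap.add_apply, LinearMap.add_apply, h' x, h, map_add]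

private lemma Itw.smul (h : Itw q P P') (a : ℤ) : Itw q (a • P) (a • P') := by
  intro x
  rw [LinearMap.smul_apply, LinearMap.smul_apply, h, map_smul]

private lemma Itw.pow (h : Itw q P P') (n : ℕ) : Itw q (P ^ n) (P' ^ n) := by
  induction n with
  | zero =>
    intro x
    rw [pow_zero, pow_zero, Module.End.one_apply, Module.End.one_apply]
  | succ n ih =>
    rw [pow_succ, pow_succ]
    exact ih.mul h

end

theorem lin_alg2_tf {M : Type} [AddCommGroup M]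
    (htf : ∀ (n : ℕ) (x : M), 0 < n → n • x = 0 → x = 0)
    (X Y : Module.End ℤ M) (hXY : Commute X Y)
    (A : ℕ → Submodule ℤ M) (hfin : ∀ i, (A i).FG) (hX : ∀ i, ∀ x ∈ A i, X x ∈ A (i + 1))
    (hY : ∀ i, ∀ x ∈ A i, Y x ∈ A (i + 1)) (m i₀ : ℕ) (hm : 0 < m)
    (hinj : ∀ i, i₀ ≤ i → ∀ x ∈ A i, X x = 0 → x = 0)
    (hsurj : ∀ i, i₀ ≤ i → ∀ y ∈ A (i + 1), ∃ x ∈ A i, X x = m • y)
    (N : ℕ)
    (hnu : ∀ l : ℕ, l.Prime → ¬ l ∣ m → ∀ i, ∀ x ∈ A i, ∃ y ∈ A (i + l * N),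
      ((Y ^ l - Y * X ^ (l - 1)) ^ N) x = l • y)
    (i₁ : ℕ) (α₀ : M) (hα₀ : α₀ ∈ A i₁) (hne : ∀ j : ℕ, (X ^ j) α₀ ≠ 0) :
    ∃ (a : ℤ) (i : ℕ) (t : M), t ∈ A i ∧ m • Y t = a • X t ∧ ∀ j : ℕ, (X ^ j) t ≠ 0 := by
  obtain ⟨i, hi⟩ : ∃ i, i = max i₀ i₁ := ⟨_, rfl⟩
  have hXpow : ∀ (n j : ℕ) (x : M), x ∈ A j → (X ^ n) x ∈ A (j + n) := by
    intro n
    induction n with
    | zero => intro j x hx; simpa using hx
    | succ n ih =>
      intro j x hx
      rw [pow_succ', Module.End.mul_apply, ← add_assoc]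
      exact hX _ _ (ih j x hx)
  have hi0 : i₀ ≤ i := by rw [hi]; exact le_max_left _ _
  have hi1 : i₁ ≤ i := by rw [hi]; exact le_max_right _ _
  have hXinj : ∀ (n : ℕ) (x : M), x ∈ A i → (X ^ n) x = 0 → x = 0 := by
    intro n
    induction n with
    | zero => intro x _ h; simpa using h
    | succ n ih =>
      intro x hx h
      rw [pow_succ', Module.End.mul_apply] at h
      exact ih x hx (hinj (i + n) (by omega) _ (hXpow n i x hx) h)
  have : Module.Finite ℤ (A i) := Module.Finite.iff_fg.2 (hfin i)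
  have : Nontrivial (A i) := by
    have h1 : (X ^ (i - i₁)) α₀ ∈ A i := by
      have := hXpow (i - i₁) i₁ α₀ hα₀
      rwa [Nat.add_sub_cancel' hi1] at this
    refine ⟨⟨⟨_, h1⟩, 0, fun h => hne (i - i₁) ?_⟩⟩
    exact congrArg Subtype.val h
  have hex : ∀ x : A i, ∃ z : A i, X (z : M) = m • Y (x : M) := by
    intro x
    obtain ⟨z, hz, hz2⟩ := hsurj i hi0 (Y x) (hY i x x.2)
    exact ⟨⟨z, hz⟩, hz2⟩
  choose f hf using hex
  have huniq : ∀ a b : A i, X (a : M) = X (b : M) → a = b := by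
    intro a b hab
    have h1 : ((a - b : A i) : M) = 0 := by
      apply hinj i hi0 _ (a - b).2
      rw [Submodule.coe_sub, map_sub, hab, sub_self]
    have h2 : a - b = 0 := Subtype.ext h1
    exact sub_eq_zero.1 h2
  obtain ⟨φ, hφ0⟩ : ∃ φ : Module.End ℤ (A i), ∀ x, φ x = f x := by
    refine ⟨{ toFun := f, map_add' := ?_, map_smul' := ?_ }, fun x => rfl⟩
    · intro x y
      apply huniq
      rw [hf, Submodule.coe_add, Submodule.coe_add, map_add, map_add, hf, hf, smul_add]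
    · intro c x
      apply huniq
      rw [hf, Submodule.coe_smul, RingHom.id_apply, Submodule.coe_smul, map_smul, map_smul, hf,
        smul_comm]
  have hφ : ∀ x : A i, X (φ x : M) = m • Y (x : M) := fun x => by rw [hφ0, hf]
  have hmod : ∀ l : ℕ, l.Prime → ¬ l ∣ m → ∀ t : A i, ∃ t' : A i,
      ((φ ^ l - φ) ^ N) t = l • t' := by
    intro l hl hlm t
    exact la_modl X Y hXY A hX i m φ hφ (fun j hj => hinj j (hi0.trans hj))
      (fun j hj => hsurj j (hi0.trans hj)) l hl hlm N (hnu l hl hlm i) t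
  obtain ⟨a, t, ht0, hta⟩ := la_end (T := A i) (fun n t hn h => by
    apply Subtype.ext
    apply htf n _ hn
    have := congrArg Subtype.val h
    simpa using this) φ m N hm hmod
  have haXY : a • X (t : M) = m • Y (t : M) := by
    rw [← hφ t, hta, Submodule.coe_smul, map_smul]
  exact ⟨a, i, t, t.2, haXY.symm, fun j hj => ht0 (Subtype.ext (hXinj j t t.2 hj))⟩

theorem lin_alg2 {M : Type} [AddCommGroup M] (X Y : Module.End ℤ M) (hXY : Commute X Y)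
    (A : ℕ → Submodule ℤ M) (hfin : ∀ i, (A i).FG) (hX : ∀ i, ∀ x ∈ A i, X x ∈ A (i + 1))
    (hY : ∀ i, ∀ x ∈ A i, Y x ∈ A (i + 1)) (m i₀ : ℕ) (hm : 0 < m)
    (hinj : ∀ i, i₀ ≤ i → ∀ x ∈ A i, X x = 0 → m • x = 0)
    (hsurj : ∀ i, i₀ ≤ i → ∀ y ∈ A (i + 1), ∃ x ∈ A i, X x = m • y)
    (N : ℕ)
    (hnu : ∀ l : ℕ, l.Prime → ¬ l ∣ m → ∀ i, ∀ x ∈ A i, ∃ y ∈ A (i + l * N),
      ((Y ^ l - Y * X ^ (l - 1)) ^ N) x = l • y)
    (i₁ : ℕ) (α₀ : M) (hα₀ : α₀ ∈ A i₁) (hne : ∀ t j : ℕ, 0 < t → t • (X ^ j) α₀ ≠ 0) :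
    ∃ (a : ℤ) (i : ℕ) (t : M), t ∈ A i ∧ m • Y t = a • X t ∧
      ∀ n j : ℕ, 0 < n → n • (X ^ j) t ≠ 0 := by
  have hinv : ∀ P : Module.End ℤ M, torS M ≤ (torS M).comap P := by
    rintro P x ⟨n, hn, hx⟩
    exact ⟨n, hn, by rw [← map_nsmul, hx, map_zero]⟩
  let q : M →ₗ[ℤ] M ⧸ torS M := (torS M).mkQ
  have hq : ∀ x, q x = 0 → ∃ n : ℕ, 0 < n ∧ n • x = 0 := by
    intro x hx
    exact (Submodule.Quotient.mk_eq_zero (torS M)).1 hx
  have hq' : ∀ (x : M) (n : ℕ), 0 < n → n • x = 0 → q x = 0 := by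
    intro x n hn hx
    exact (Submodule.Quotient.mk_eq_zero (torS M)).2 ⟨n, hn, hx⟩
  have hqs : Function.Surjective q := Submodule.mkQ_surjective _
  let X' : Module.End ℤ (M ⧸ torS M) := (torS M).mapQ (torS M) X (hinv X)
  let Y' : Module.End ℤ (M ⧸ torS M) := (torS M).mapQ (torS M) Y (hinv Y)
  have hXq : Itw q X X' := fun x => rfl
  have hYq : Itw q Y Y' := fun x => rfl
  have hcomm : Commute X' Y' := by
    apply LinearMap.ext
    intro x'
    obtain ⟨x, rfl⟩ := hqs x'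
    rw [(hXq.mul hYq) x, (hYq.mul hXq) x, hXY.eq]
  have htf : ∀ (n : ℕ) (x : M ⧸ torS M), 0 < n → n • x = 0 → x = 0 := by
    intro n x' hn hx
    obtain ⟨x, rfl⟩ := hqs x'
    rw [← map_nsmul] at hx
    obtain ⟨m, hm, h⟩ := hq _ hx
    exact hq' x (m * n) (Nat.mul_pos hm hn) (by rw [mul_smul]; exact h)
  have hfin' : ∀ i, ((A i).map q).FG := fun i => (hfin i).map q
  have hX' : ∀ i, ∀ x ∈ (A i).map q, X' x ∈ (A (i + 1)).map q := by
    rintro i _ ⟨x, hx, rfl⟩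
    exact ⟨X x, hX i x hx, rfl⟩
  have hY' : ∀ i, ∀ x ∈ (A i).map q, Y' x ∈ (A (i + 1)).map q := by
    rintro i _ ⟨x, hx, rfl⟩
    exact ⟨Y x, hY i x hx, rfl⟩
  have hinj' : ∀ i, i₀ ≤ i → ∀ x ∈ (A i).map q, X' x = 0 → x = 0 := by
    rintro i hi _ ⟨x, hx, rfl⟩ h0
    rw [hXq x] at h0
    obtain ⟨n, hn, h1⟩ := hq _ h0
    rw [← map_nsmul] at h1
    have h2 := hinj i hi (n • x) ((A i).smul_of_tower_mem n hx) h1
    exact hq' x (m * n) (Nat.mul_pos hm hn) (by rw [mul_smul]; exact h2)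
  have hsurj' : ∀ i, i₀ ≤ i → ∀ y ∈ (A (i + 1)).map q, ∃ x ∈ (A i).map q, X' x = m • y := by
    rintro i hi _ ⟨y, hy, rfl⟩
    obtain ⟨x, hx, h1⟩ := hsurj i hi y hy
    refine ⟨q x, ⟨x, hx, rfl⟩, ?_⟩
    rw [hXq x, h1, map_nsmul]
  have hnu' : ∀ l : ℕ, l.Prime → ¬ l ∣ m → ∀ i, ∀ x ∈ (A i).map q,
      ∃ y ∈ (A (i + l * N)).map q, ((Y' ^ l - Y' * X' ^ (l - 1)) ^ N) x = l • y := by
    rintro l hl hlm i _ ⟨x, hx, rfl⟩
    obtain ⟨y, hy, h1⟩ := hnu l hl hlm i x hx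
    have hI : Itw q ((Y ^ l - Y * X ^ (l - 1)) ^ N) ((Y' ^ l - Y' * X' ^ (l - 1)) ^ N) :=
      ((hYq.pow l).sub (hYq.mul (hXq.pow (l - 1)))).pow N
    refine ⟨q y, ⟨y, hy, rfl⟩, ?_⟩
    rw [hI x, h1, map_nsmul]
  have hne' : ∀ j : ℕ, (X' ^ j) (q α₀) ≠ 0 := by
    intro j hj
    rw [(hXq.pow j) α₀] at hj
    obtain ⟨t, ht, h⟩ := hq _ hj
    exact hne t j ht h
  obtain ⟨a, i, t', ⟨x, hx, rfl⟩, hxa, hxne⟩ := lin_alg2_tf htf X' Y' hcomm
    (fun i => (A i).map q) hfin' hX' hY' m i₀ hm hinj' hsurj' N hnu' i₁ (q α₀) ⟨α₀, hα₀, rfl⟩ hne'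
  have h0 : q (m • Y x - a • X x) = 0 := by
    rw [map_sub, map_nsmul, map_zsmul, ← hXq x, ← hYq x, hxa, sub_self]
  obtain ⟨n, hn, h1⟩ := hq _ h0
  refine ⟨a, i, n • x, (A i).smul_of_tower_mem n hx, ?_, ?_⟩
  · rw [map_nsmul, map_nsmul, smul_comm m n, smul_comm a n, ← sub_eq_zero, ← smul_sub]
    exact h1
  · intro k j hk h2
    rw [map_nsmul, ← mul_smul] at h2
    apply hxne j
    rw [(hXq.pow j) x]
    exact hq' _ (k * n) (Nat.mul_pos hk hn) h2

end Pool.MP0c3001.DV
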