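import Pool.Agent.Lib.MP_0c3001_gt.Mg.G025
import Pool.Agent.Lib.MP_0c3001_gt.Mg.G020

/-!
# UM: Theorem U, cohomological form

Every central subgroup `C` is generated by a finite set and elements which for every prime `l` lie in a copy of `ℤ[1/l]`;
an element `z ≠ 1` of the centre which has `q`-th roots for infinitely many `q` is of this kind.
-/

set_option autoImplicit false

namespace Pool.MP0c3001.DV

open CategoryTheory CategoryTheory.Abelian Limits

noncomputable section

variable {k : Type} [CommRing k]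

/-- `G` is torsion free -/
theorem tf_of_kills (hk : Function.Bijective (Int.cast : ℤ → k)) {G : Type} [Group G] {n : ℕ}
    (hcd : Kills k G 1 (n + 1)) (m : ℕ) (c : G) (hm : 0 < m) (hc : c ^ m = 1) : c = 1 := by
  have h3 : IsOfFinOrder c := isOfFinOrder_iff_pow_eq_one.2 ⟨m, hm, hc⟩
  have h4 := orderOf_dvd_of_kills hk hcd c h3
  have h5 : orderOf c = 1 := Nat.dvd_one.1 h4
  exact orderOf_eq_one_iff.1 h5

theorem ztf_of_kills (hk : Function.Bijective (Int.cast : ℤ → k)) {G : Type} [Group G] {n : ℕ}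
    (hcd : Kills k G 1 (n + 1)) (j : ℤ) (c : G) (hc1 : c ≠ 1) (hc : c ^ j = 1) : j = 0 := by
  by_contra hj
  refine hc1 (tf_of_kills hk hcd j.natAbs c (Int.natAbs_pos.2 hj) ?_)
  rcases Int.natAbs_eq j with h1 | h1
  · rw [← zpow_natCast, ← h1]; exact hc
  · rw [← zpow_natCast, ← inv_eq_one, ← zpow_neg, ← h1]; exact hc

/-- the quotient by a central cyclic subgroup -/
theorem exists_cycExt {G : Type} [Group G] (z : G) (hz : z ∈ Subgroup.center G)
    (hord : ∀ j : ℤ, z ^ j = 1 → j = 0) :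
    ∃ (Q : Type) (_ : Group Q) (p : G →* Q), CycExt p z := by
  have hcen : ∀ g : G, g * z = z * g := Subgroup.mem_center_iff.1 hz
  have : (Subgroup.zpowers z).Normal := by
    constructor
    intro x hx g
    obtain ⟨j, rfl⟩ := Subgroup.mem_zpowers_iff.1 hx
    have h1 : g * z ^ j = z ^ j * g := (Commute.zpow_right (hcen g : Commute g z) j).eq
    rw [h1, mul_assoc, mul_inv_cancel, mul_one]
    exact hx
  refine ⟨G ⧸ Subgroup.zpowers z, inferInstance, QuotientGroup.mk' _,
    QuotientGroup.mk'_surjective _, (QuotientGroup.eq_one_iff z).2 (Subgroup.mem_zpowers z), ?_,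
    hord, fun g => (hcen g).symm⟩
  intro g hg
  obtain ⟨j, hj⟩ := Subgroup.mem_zpowers_iff.1 ((QuotientGroup.eq_one_iff g).1 hg)
  exact ⟨j, hj.symm⟩

/-- a central element with roots of infinitely many orders lies in copies of all `ℤ[1/l]` -/
theorem roots_divisible (hk : Function.Bijective (Int.cast : ℤ → k)) {G : Type} [Group G] (n : ℕ)
    (hcd : Kills k G 1 (n + 1)) (hfg : FgCoh k G) (z : G) (hz : z ∈ Subgroup.center G)
    (hz1 : z ≠ 1) (hinf : {q : ℕ | ∃ r : G, r ^ q = z}.Infinite) (l : ℕ) (hl : l.Prime) :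
    ∃ D : Subgroup G, z ∈ D ∧ Nonempty (D ≃* Multiplicative (Localization.Away (l : ℤ))) := by
  have hord : ∀ j : ℤ, z ^ j = 1 → j = 0 := fun j hj => ztf_of_kills hk hcd j z hz1 hj
  obtain ⟨Q, _, p, hp⟩ := exists_cycExt z hz hord
  refine bad_divisible hk n hcd hfg hp ?_ l hl
  intro m d hm hK
  apply hinf
  refine (Set.finite_Iic m).subset ?_
  rintro q ⟨r, hr⟩
  have hq0 : q ≠ 0 := by
    rintro rfl
    exact hz1 (by rw [← hr, pow_zero])
  have h1 : (p r) ^ q = 1 := by rw [← map_pow, hr, hp.map_z]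
  have h2 : IsOfFinOrder (p r) := isOfFinOrder_iff_pow_eq_one.2 ⟨q, Nat.pos_of_ne_zero hq0, h1⟩
  have h3 := orderOf_dvd_of_kills hk hK (p r) h2
  have h4 : q ∣ orderOf (p r) := by
    have h5 : p (r ^ orderOf (p r)) = 1 := by rw [map_pow, pow_orderOf_eq_one]
    obtain ⟨i, hi⟩ := hp.ker _ h5
    have h6 : z ^ (orderOf (p r) : ℤ) = z ^ (i * q) := by
      rw [zpow_natCast, zpow_mul, ← hi, zpow_natCast, ← pow_mul, mul_comm, pow_mul, hr]
    have h7 : z ^ ((orderOf (p r) : ℤ) - i * q) = 1 := by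
      rw [zpow_sub, h6, mul_inv_cancel]
    have h8 := hord _ h7
    have h9 : (orderOf (p r) : ℤ) = q * i := by linarith
    exact Int.natCast_dvd_natCast.1 ⟨i, h9⟩
  exact Nat.le_of_dvd hm (h4.trans h3)

theorem theorem_U (hk : Function.Bijective (Int.cast : ℤ → k)) {G : Type} [Group G] (n : ℕ)
    (hcd : Kills k G 1 (n + 1)) (hfg : FgCoh k G) (C : Subgroup G) (hC : C ≤ Subgroup.center G) :
    ∃ S : Set G, S.Finite ∧ S ⊆ C ∧ C ≤ Subgroup.closure (S ∪ {z | z ∈ C ∧ ∀ l : ℕ, l.Prime →
      ∃ D : Subgroup G, z ∈ D ∧ Nonempty (D ≃* Multiplicative (Localization.Away (l : ℤ)))}) := by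
  have hcomm : ∀ a b : C, a * b = b * a := fun a b =>
    Subtype.ext ((Subgroup.mem_center_iff.1 (hC b.2)) a.1)
  let _ : CommGroup C := { (inferInstance : Group C) with mul_comm := hcomm }
  let ι : Multiplicative (Additive C) →* G :=
    { toFun := fun a => ((a.toAdd.toMul : C) : G)
      map_one' := rfl
      map_mul' := fun _ _ => rfl }
  have hι : Function.Injective ι := fun a b h =>
    Multiplicative.toAdd.injective (Additive.toMul.injective (Subtype.ext h))
  have hιc : ∀ a, ι a ∈ Subgroup.center G := fun a => hC (a.toAdd.toMul : C).2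
  have htf : ∀ (m : ℕ) (c : Additive C), 0 < m → m • c = 0 → c = 0 := by
    intro m c hm hmc
    have h1 : c.toMul ^ m = 1 := hmc
    have h2 : (c.toMul : G) ^ m = 1 := by rw [← Subgroup.coe_pow, h1]; rfl
    exact Additive.toMul.injective (Subtype.ext (tf_of_kills hk hcd m _ hm h2))
  have hrank0 : ∀ f : (Fin (n + 1) → ℤ) →+ Additive C, ¬ Function.Injective f := by
    intro f hf
    let f' : Zr (n + 1) →* G := C.subtype.comp
      ({ toFun := fun v => (f v.toAdd).toMul
         map_one' := by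
           have : f 0 = 0 := map_zero f
           exact this
         map_mul' := fun a b => by
           have : f (a.toAdd + b.toAdd) = f a.toAdd + f b.toAdd := map_add f _ _
           exact this } : Zr (n + 1) →* C)
    refine no_embed hk hcd f' ?_
    intro a b hab
    have h1 : (f a.toAdd).toMul = (f b.toAdd).toMul := Subtype.ext hab
    exact hf (show f a.toAdd = f b.toAdd from h1)
  have hrank : ∀ (U : AddSubgroup (Additive C)) (r : ℕ), Nonempty (U ≃+ (Fin r → ℤ)) → r ≤ n := by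
    rintro U r ⟨f⟩
    by_contra hr
    push Not at hr
    let g : (Fin (n + 1) → ℤ) →+ (Fin r → ℤ) :=
      { toFun := fun v i => if h : (i : ℕ) < n + 1 then v ⟨i, h⟩ else 0
        map_zero' := by
          funext i
          by_cases h : (i : ℕ) < n + 1 <;> simp [h]
        map_add' := fun v w => by
          funext i
          change (if h : (i : ℕ) < n + 1 then (v + w) ⟨i, h⟩ else 0) =
            (if h : (i : ℕ) < n + 1 then v ⟨i, h⟩ else 0) +
              (if h : (i : ℕ) < n + 1 then w ⟨i, h⟩ else 0)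
          by_cases h : (i : ℕ) < n + 1
          · rw [dif_pos h, dif_pos h, dif_pos h]; rfl
          · rw [dif_neg h, dif_neg h, dif_neg h, add_zero] }
    have hg : Function.Injective g := by
      intro v w h
      funext i
      have h1 := congrFun h ⟨i, by omega⟩
      change (if h : (i : ℕ) < n + 1 then v ⟨i, h⟩ else 0) =
        (if h : (i : ℕ) < n + 1 then w ⟨i, h⟩ else 0) at h1
      rw [dif_pos i.2, dif_pos i.2] at h1
      exact h1
    exact hrank0 ((U.subtype.comp f.symm.toAddMonoidHom).comp g)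
      ((Subtype.val_injective.comp f.symm.injective).comp hg)
  have hbot : GoodQ k ι ⊥ 1 := by
    refine ⟨n + 1, fun Q _ p hp => hcd.of_bijective p ⟨?_, hp.1⟩⟩
    rw [injective_iff_map_eq_one]
    intro g hg
    obtain ⟨a, ha, rfl⟩ := (hp.2 g).1 hg
    rw [AddSubgroup.mem_bot.1 ha]
    exact map_one ι
  have htor : ∀ (U : AddSubgroup (Additive C)) (m : ℕ) (x : Additive C), GoodQ k ι U m →
      (∃ j : ℤ, j ≠ 0 ∧ j • x ∈ U) → m • x ∈ U := by
    rintro U m x ⟨d, hd⟩ ⟨j, hj, hjx⟩
    obtain ⟨Q, _, p, hp⟩ := exists_kerIs ι hιc U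
    have hK := hd Q p hp
    have hmemU : ∀ y : Additive C, p (ι (Multiplicative.ofAdd y)) = 1 → y ∈ U := by
      intro y hy
      obtain ⟨a, ha, hay⟩ := (hp.2 _).1 hy
      have : a = y := Multiplicative.ofAdd.injective (hι hay)
      rwa [← this]
    have h0 : j.natAbs • x ∈ U := by
      rcases Int.natAbs_eq j with h1 | h1
      · rw [← natCast_zsmul, ← h1]; exact hjx
      · have h2 : (j.natAbs : ℤ) • x ∈ U := by
          rw [← neg_neg (j.natAbs : ℤ), ← h1, neg_smul]; exact U.neg_mem hjx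
        rwa [natCast_zsmul] at h2
    have h1 : (p (ι (Multiplicative.ofAdd x))) ^ j.natAbs = 1 := by
      rw [← map_pow, ← map_pow, ← ofAdd_nsmul]
      exact (hp.2 _).2 ⟨_, h0, rfl⟩
    have h2 : IsOfFinOrder (p (ι (Multiplicative.ofAdd x))) :=
      isOfFinOrder_iff_pow_eq_one.2 ⟨j.natAbs, Int.natAbs_pos.2 hj, h1⟩
    have h3 := orderOf_dvd_of_kills hk hK _ h2
    apply hmemU
    rw [ofAdd_nsmul, map_pow, map_pow]
    exact orderOf_dvd_iff_pow_eq_one.1 h3
  obtain ⟨S, hS, hall⟩ := abs_chain htf n hrank (GoodQ k ι) hbot htor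
    (fun r U' u c m hm hU' hu hc hG hB => key_step hk hfg ι hι hιc r U' u c m hm hU' hu hc hG hB)
  -- bad elements
  have hbad : ∀ w : Additive C, (∀ m, 0 < m → ¬ GoodQ k ι (AddSubgroup.zmultiples w) m) →
      ∀ l : ℕ, l.Prime → ∃ D : Subgroup G, ((w.toMul : C) : G) ∈ D ∧
        Nonempty (D ≃* Multiplicative (Localization.Away (l : ℤ))) := by
    intro w hw l hl
    have hw1 : ((w.toMul : C) : G) ≠ 1 := by
      intro h
      have h1 : w = 0 := Additive.toMul.injective (Subtype.ext h)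
      subst h1
      refine hw 1 one_pos ?_
      rw [AddSubgroup.zmultiples_zero_eq_bot]
      exact hbot
    have hord : ∀ j : ℤ, ((w.toMul : C) : G) ^ j = 1 → j = 0 := fun j hj =>
      ztf_of_kills hk hcd j _ hw1 hj
    obtain ⟨Q, _, p, hp⟩ := exists_cycExt ((w.toMul : C) : G) (hC w.toMul.2) hord
    refine bad_divisible hk n hcd hfg hp ?_ l hl
    intro m d hm hK
    refine hw m hm (goodQ_of ι _ p ⟨hp.surj, fun g => ?_⟩ hK)
    constructor
    · intro hg
      obtain ⟨j, rfl⟩ := hp.ker g hg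
      exact ⟨j • w, AddSubgroup.mem_zmultiples_iff.2 ⟨j, rfl⟩, rfl⟩
    · rintro ⟨a, ha, rfl⟩
      obtain ⟨j, rfl⟩ := AddSubgroup.mem_zmultiples_iff.1 ha
      have h1 : ι (Multiplicative.ofAdd (j • w)) = ((w.toMul : C) : G) ^ j := rfl
      rw [h1, map_zpow, hp.map_z, one_zpow]
  refine ⟨(fun a : Additive C => ((a.toMul : C) : G)) '' S, hS.image _, ?_, ?_⟩
  · rintro _ ⟨a, _, rfl⟩
    exact a.toMul.2
  · intro g hg
    let K := Subgroup.closure ((fun a : Additive C => ((a.toMul : C) : G)) '' S ∪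
      {z | z ∈ C ∧ ∀ l : ℕ, l.Prime → ∃ D : Subgroup G, z ∈ D ∧
        Nonempty (D ≃* Multiplicative (Localization.Away (l : ℤ)))})
    let T : AddSubgroup (Additive C) := Subgroup.toAddSubgroup (K.comap C.subtype)
    have h1 : ∀ x : Additive C, x ∈ T ↔ ((x.toMul : C) : G) ∈ K := fun x => Iff.rfl
    have h2 : AddSubgroup.closure (S ∪ {w | ∀ m, 0 < m →
        ¬ GoodQ k ι (AddSubgroup.zmultiples w) m}) ≤ T := by
      rw [AddSubgroup.closure_le]
      rintro x (hx | hx)
      · exact (h1 x).2 (Subgroup.subset_closure (Or.inl ⟨x, hx, rfl⟩))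
      · exact (h1 x).2 (Subgroup.subset_closure (Or.inr ⟨x.toMul.2, hbad x hx⟩))
    exact (h1 (Additive.ofMul ⟨g, hg⟩)).1 (h2 (hall _))

end

end Pool.MP0c3001.DV
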